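import Pool.Agent.Lib.MP_37c7bf_co_MW.Final

/-!
# Deciding generic rigidity in 3D on graphs of bounded mim-width in polynomial time

For every `c` there is a deterministic polynomial-time Turing machine that decides generic
rigidity in three-space for all graphs of mim-width at most `c`; on all other graphs it still
answers `true` only if the graph is generically rigid.
-/

namespace Pool.Agent.Results.MP_37c7bf_co.BoundedMimwidth

open Turing Pool.Agent.Lib.FOLFP Pool.Agent.H26R Pool.Agent.Lib.MP_37c7bf_co_MW

open Classical in
/-- For every `c` there are a function `f` from finite graphs to bit strings and a machine `M`
(Mathlib's `TM2`, with finite stack alphabets) computing `f` in polynomial time from the adjacency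
matrix, such that `f I` is the truth value of generic rigidity of `I` in three-space for every
graph `I` of mim-width at most `c`, and for every graph `I` with `f I = [true]` the graph is
generically rigid. -/
theorem result (c : ℕ) :
    ∃ (f : Graph → List Bool) (M : TM2ComputableInPolyTime Graph.encode id f),
      (∀ k, Finite (M.tm.Γ k)) ∧
      (∀ I : Graph, MimwidthLE I.G c → f I = [decide (GenericallyRigid I.G)]) ∧
      ∀ I : Graph, f I = [true] → GenericallyRigid I.G :=
  main c

end Pool.Agent.Results.MP_37c7bf_co.BoundedMimwidth
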