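import Pool.Agent.Lib.MP_37c7bf_co_h77dm.FinalU

/-!
# One polynomial-time algorithm for generic rigidity in 3D of all dense graphs

There is one deterministic polynomial-time Turing machine that answers `true` only on generically
rigid graphs and that decides generic rigidity in three-space on every graph on `n` vertices in which
every independent set of vertices of degree less than `n / 2 ^ l` has at most `l` elements, where
`l = ⌊log₂ log₂ n / 10⌋`. In particular, for all fixed `ε > 0` and `k` it is correct on all but
finitely many of the graphs in which every independent set of vertices of degree less than `ε n` has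
at most `k` elements.
-/

namespace Pool.Agent.Results.MP_37c7bf_co.DenseMachine

open Turing Pool.Agent.Lib.FOLFP Pool.Agent.H26R Pool.Agent.Lib.MP_37c7bf_co_h77dm

open Classical in
/-- There are a function `f` from finite graphs to bit strings and a machine `M` (Mathlib's `TM2`,
with finite stack alphabets) computing `f` in polynomial time from the adjacency matrix, such that
`f I` is always a single bit, this bit is `true` only if `I` is generically rigid in three-space, it
is the truth value of generic rigidity for every graph `I` on `n` vertices in which every independent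
set of vertices of degree less than `n / 2 ^ l` has at most `l` elements, where
`l = ⌊⌊log₂ ⌊log₂ n⌋⌋ / 10⌋`, and, for every `ε > 0` and every `k`, also for all sufficiently large
graphs `I` on `n` vertices in which every independent set of vertices of degree less than `ε n` has
at most `k` elements. -/
theorem result :
    ∃ (f : Graph → List Bool) (M : TM2ComputableInPolyTime Graph.encode id f),
      (∀ k, Finite (M.tm.Γ k)) ∧
      (∀ I : Graph, f I = [true] ∨ f I = [false]) ∧
      (∀ I : Graph, f I = [true] → GenericallyRigid I.G) ∧
      (∀ I : Graph, (∀ S : Finset (Fin I.n), I.G.IsIndepSet S →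
          (∀ v ∈ S, 2 ^ (Nat.log 2 (Nat.log 2 I.n) / 10) * (I.G.neighborSet v).ncard < I.n) →
            S.card ≤ Nat.log 2 (Nat.log 2 I.n) / 10) →
        f I = [decide (GenericallyRigid I.G)]) ∧
      ∀ ε : ℝ, 0 < ε → ∀ k : ℕ, ∃ n₀ : ℕ, ∀ I : Graph, n₀ ≤ I.n →
        (∀ S : Finset (Fin I.n), I.G.IsIndepSet S →
          (∀ v ∈ S, ((I.G.neighborSet v).ncard : ℝ) < ε * I.n) → S.card ≤ k) →
        f I = [decide (GenericallyRigid I.G)] := by
  obtain ⟨f, M, h1, h2, h3, h4⟩ := mainU
  refine ⟨f, M, h1, h4, h3, fun I hI => h2 I hI, fun ε hε k => ?_⟩
  obtain ⟨n₀, hn₀⟩ := fewU_of_few ε hε k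
  exact ⟨n₀, fun I hn hI => h2 I (hn₀ I.n hn I.G hI)⟩

end Pool.Agent.Results.MP_37c7bf_co.DenseMachine
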