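import Pool.Agent.Lib.GR.Final
import Pool.Agent.Lib.GR.Top2

/-!
# A combinatorial characterization of generic rigidity in three-space
-/

set_option autoImplicit false

namespace Pool.Agent.Results.MP_37c7bf_co.K5Sequences

open MeasureTheory Pool.Agent.K5
open Pool.Agent.H26R (E3 GenericallyRigid)

/-- Let `G` be a finite simple graph with vertex set `V` and edge set `E`. A proper
`K₅`-sequence is a list of sets of five vertices each of which spans a pair of vertices that is
spanned by none of the earlier ones. For almost all realizations `p` in three-space the rank of the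
rigidity matrix of `(G, p)` is the least value of `|E ∪ E(C₁) ∪ ⋯ ∪ E(Cₜ)| - t` over all proper
`K₅`-sequences `C₁, …, Cₜ`, where `E(C)` is the set of the ten pairs of elements of `C`. Hence `G`
(with at least four vertices) is generically rigid in three-space if and only if
`|E ∪ E(C₁) ∪ ⋯ ∪ E(Cₜ)| - t ≥ 3 |V| - 6` for all proper `K₅`-sequences. -/
theorem result :
    ∀ (V : Type) [Fintype V] [DecidableEq V] (G : SimpleGraph V) [DecidableRel G.Adj],
      (∀ᵐ p : V → E3 ∂volume,
        IsLeast {r : ℕ | ∃ L : List (Finset V), ProperK5Sequence L ∧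
          r + L.length = (G.edgeFinset ∪ edgesOf L).card} (rigidityRank G p)) ∧
      (4 ≤ Fintype.card V → (GenericallyRigid G ↔
        ∀ L : List (Finset V), ProperK5Sequence L →
          3 * Fintype.card V + L.length ≤ (G.edgeFinset ∪ edgesOf L).card + 6)) :=
  fun _ _ _ G _ => ⟨GR.ae_rank_of_allGood G ℚ (GR.allGood ℚ _ two_ne_zero),
    GR.rigid_iff_of_allGood G ℚ (GR.allGood ℚ _ two_ne_zero)⟩

end Pool.Agent.Results.MP_37c7bf_co.K5Sequences
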